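import Pool.Agent.MP_637f9c_lc.H1.Main

/-! There is a model of ZF in which some wellorderable `θ⁺`-c.c. forcing is not uniformly
`θ`-narrow. -/

namespace Pool.Agent.Results.MP_637f9c_lc.NotUniform

open Pool.Agent.MP_637f9c_lc.H1

theorem result : ∃ (M : Type) (E : M → M → Prop), IsZF E ∧
    ∃ θ X R : M, InfOrd E θ ∧ IsPO E X R ∧ Wellorderable E X ∧ ChainCond E θ X R ∧
      ¬ UnifNarrow E θ X R := by
  obtain ⟨M, E, h1, h2⟩ := exists_counter
  refine ⟨M, E, h1, ?_⟩
  by_contra hc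
  refine h2 fun θ X R a b c d => ?_
  by_contra he
  exact hc ⟨θ, X, R, a, b, c, d, he⟩

end Pool.Agent.Results.MP_637f9c_lc.NotUniform
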